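import Mathlib
import Pool.Agent.Lib.H14SR.TailInt

/-!
# MP_1bd878_lc : semi-random instances of the square-root sum problem
-/

namespace Pool.Agent.Results.MP_1bd878_lc.SemiRandomTail

open Pool.Agent.H14SR

/-- Let `c i` (`i < 3 m`) be nonzero integers, `c i ^ 2 * (a i + H) ≤ A`, and let `t` be ANY real number (for instance the
contribution of all other entries of an instance).  At most `2 (32 m ^ 2) ^ m H ^ (2 m)` of the `H ^ (3 m)` vectors
`r` satisfy `|t + ∑ c i √(a i + r i)| < (1/2) (2 m √A) ^ (-(4 ^ m))`. -/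
theorem result (m A H : ℕ) (hm : 1 ≤ m) (c : Fin (3 * m) → ℤ) (a : Fin (3 * m) → ℕ) (t : ℝ)
    (hc : ∀ i, c i ≠ 0) (hA : ∀ i, (c i) ^ 2 * ((a i : ℤ) + H) ≤ A) :
    Nat.card {r : Fin (3 * m) → Fin H //
        |t + ∑ i, (c i : ℝ) * Real.sqrt ((a i + (r i : ℕ) : ℕ) : ℝ)|
          < 1 / (2 * (2 * (m : ℝ) * Real.sqrt A) ^ (4 ^ m))}
      ≤ 2 * (32 * m ^ 2) ^ m * H ^ (2 * m) :=
  tail_int m A H hm c a t hc hA

end Pool.Agent.Results.MP_1bd878_lc.SemiRandomTail
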