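import Mathlib
import Pool.Agent.Lib.H14SR.Mom4F
import Pool.Agent.Lib.H14SR.Mono

/-!
# MP_1bd878_lc : smoothed and average-case analysis of the square-root sum problem

An explicit integer procedure (equality test by perfect squares, then `L`-bit truncated sums) decides
`√(a 0) + ... ≤ √(b 0) + ...`.  If the `n` entries are independent and uniform on arbitrary sets of `H ≥ 4 ^ q * n`
natural numbers `≤ A`, then the `q`-th moment of the number of bits that it needs is at most
`2 (8 log₂ (2 n √A)) ^ q`.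
-/

namespace Pool.Agent.Results.MP_1bd878_lc.SmoothedPrecision

open Pool.Agent.H14SR

theorem result :
    -- whenever the procedure answers, the answer is correct
    (∀ (L k l : ℕ) (a : Fin k → ℕ) (b : Fin l → ℕ) (v : Bool), answer L a b = some v →
      (v = true ↔ ∑ i, Real.sqrt (a i) ≤ ∑ j, Real.sqrt (b j))) ∧
    -- it answers exactly for the `L ≥ prec a b`
    (∀ (L k l : ℕ) (a : Fin k → ℕ) (b : Fin l → ℕ), answer L a b ≠ none ↔ prec a b ≤ L) ∧
    -- moments of the least number of bits; the sets are the ranges of the injective `f i`, `g j`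
    (∀ (q k l H A : ℕ) (f : Fin k → Fin H → ℕ) (g : Fin l → Fin H → ℕ), 1 ≤ q → 1 ≤ k + l →
      4 ^ q * (k + l) ≤ H → H ≤ A →
      (∀ i, Function.Injective (f i)) → (∀ j, Function.Injective (g j)) →
      (∀ i h, f i h ≤ A) → (∀ j h, g j h ≤ A) →
      (∑ r : Fin k → Fin H, ∑ s : Fin l → Fin H,
          (prec (fun i => f i (r i)) (fun j => g j (s j)) : ℝ) ^ q) / (H : ℝ) ^ (k + l)
        ≤ 2 * (8 * Real.logb 2 (2 * ((k : ℝ) + l) * Real.sqrt A)) ^ q) := by
  refine ⟨fun L k l a b v h => answer_sound L a b v h, fun L k l a b => ?_, ?_⟩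
  · obtain ⟨L₀, h₀⟩ := answer_eventually a b
    exact answer_ne_none_iff a b ⟨L₀, h₀ L₀ le_rfl⟩ L
  intro q k l H A f g hq hn hH hHA hf hg hfA hgA
  have hH0 : 0 < H := lt_of_lt_of_le (Nat.mul_pos (pow_pos (by norm_num) q) hn) hH
  have hpos : (0 : ℝ) < (H : ℝ) ^ (k + l) := pow_pos (by exact_mod_cast hH0) _
  rw [div_le_iff₀ hpos]
  exact moment_f q k l H A f g hq hn hH hHA hf hg hfA hgA

end Pool.Agent.Results.MP_1bd878_lc.SmoothedPrecision
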