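import Mathlib
import Pool.Agent.Lib.H14SR.Unif4F

/-!
# MP_1bd878_lc : for almost all radicands all integer combinations of the square roots are well separated
-/

namespace Pool.Agent.Results.MP_1bd878_lc.UniformGap

open Pool.Agent.H14SR

/-- Let `f i : Fin H → ℕ` (`i < n`) be injective with values `≤ A`.  For all but at most
`(2 C + 1) ^ n (n / (2 H)) ^ m H ^ n` of the `H ^ n` choices `x i = f i (r i)`, every
sum `∑ c i √(x i)` with integers `|c i| ≤ C` is zero or at least `(1/2) (2 n C √A) ^ (-(4 ^ m))` in absolute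
value. -/
theorem result (n m C A H : ℕ) (hm : 1 ≤ m) (hmn : m ≤ n) (f : Fin n → Fin H → ℕ)
    (hf : ∀ i, Function.Injective (f i)) (hA : ∀ i h, f i h ≤ A) :
    (Nat.card {r : Fin n → Fin H // ∃ c : Fin n → ℤ, (∀ i, |c i| ≤ C) ∧
        ∑ i, (c i : ℝ) * Real.sqrt (f i (r i)) ≠ 0 ∧
        |∑ i, (c i : ℝ) * Real.sqrt (f i (r i))|
          < 1 / (2 * (2 * (n : ℝ) * C * Real.sqrt A) ^ (4 ^ m))} : ℝ)
      ≤ (2 * C + 1) ^ n * ((n : ℝ) / (2 * H)) ^ m * (H : ℝ) ^ n := by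
  classical
  have h := uniform_f (ι := Fin n) m C A H hm f hf hA
  rw [Fintype.card_fin] at h
  set N : ℕ := Nat.card {r : Fin n → Fin H // ∃ c : Fin n → ℤ, (∀ i, |c i| ≤ C) ∧
        ∑ i, (c i : ℝ) * Real.sqrt (f i (r i)) ≠ 0 ∧
        |∑ i, (c i : ℝ) * Real.sqrt (f i (r i))|
          < 1 / (2 * (2 * (n : ℝ) * C * Real.sqrt A) ^ (4 ^ m))} with hN
  have hNe : 2 ^ m * N ≤ (2 * C + 1) ^ n * (n ^ m * H ^ (n - m)) := by
    refine le_trans (le_of_eq ?_) h
    congr 1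
    rw [hN, Nat.card_eq_fintype_card, Fintype.card_subtype]
    congr 1
    ext r
    simp only [Finset.mem_filter, Finset.mem_univ, true_and]
    rfl
  have hR : (2 : ℝ) ^ m * (N : ℝ) ≤ (2 * (C : ℝ) + 1) ^ n * ((n : ℝ) ^ m * (H : ℝ) ^ (n - m)) := by
    exact_mod_cast hNe
  rcases Nat.eq_zero_or_pos H with rfl | hH
  · have hn : 0 < n := by omega
    have : N = 0 := by
      rw [hN]
      have : IsEmpty (Fin n → Fin 0) := ⟨fun f => (f ⟨0, hn⟩).elim0⟩
      exact Nat.card_of_isEmpty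
    rw [this]
    simp only [Nat.cast_zero]
    positivity
  · have hHr : (0 : ℝ) < H := by exact_mod_cast hH
    have h1 : (H : ℝ) ^ n = (H : ℝ) ^ (n - m) * (H : ℝ) ^ m := by
      rw [← pow_add, Nat.sub_add_cancel hmn]
    have h2 : (2 * (C : ℝ) + 1) ^ n * ((n : ℝ) / (2 * H)) ^ m * (H : ℝ) ^ n
        = ((2 * (C : ℝ) + 1) ^ n * ((n : ℝ) ^ m * (H : ℝ) ^ (n - m))) / 2 ^ m := by
      rw [h1, div_pow, mul_pow]
      field_simp
    rw [h2, le_div_iff₀ (by positivity)]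
    linarith [hR]

end Pool.Agent.Results.MP_1bd878_lc.UniformGap
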