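import Mathlib
import Pool.Agent.Lib.H22W.Asymp
import Pool.Agent.Lib.H22X.Prog
import Pool.Agent.Lib.H22X.Asymp
import Pool.Agent.Lib.H22Y.Sound

/-!
# The square-root sum problem: a certifying algorithm for entries in a short arithmetic progression
-/

open Filter Finset Turing Pool.Agent.PolyTime Pool.Agent.Lib.H22W

namespace Pool.Agent.Results.MP_1bd878_lc.WindowGap

/-- The separation bound for sums of square roots of `ν + x`, `x ≤ h`, for a real number `ν > 0`. For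
`ν = N / D` this is, up to the factor `√D`, a sum of square roots of `N + D x`. -/
theorem gap (ν : ℝ) (h : ℕ) (c : ℕ → ℤ) (hν : 0 < ν) (hh : 1 ≤ h) (hc : ∃ x ≤ h, c x ≠ 0) :
    ∃ j : ℕ, (∀ i < j, ∑ x ∈ range (h + 1), c x * (x : ℤ) ^ i = 0) ∧
      ∑ x ∈ range (h + 1), c x * (x : ℤ) ^ j ≠ 0 ∧
      (j : ℝ) < 1 + √h * Real.log (2 * ∑ x ∈ range (h + 1), |(c x : ℝ)|) ∧
      (2 * (∑ x ∈ range (h + 1), |(c x : ℝ)|) * (h : ℝ) ^ (j + 1) ≤ ν →
        √ν / (2 * (4 * ν) ^ j) ≤ |∑ x ∈ range (h + 1), (c x : ℝ) * √(ν + x)| ∧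
        (0 < ∑ x ∈ range (h + 1), (c x : ℝ) * √(ν + x) ↔
          0 < (if j = 0 then 1 else (-1) ^ (j + 1)) * ∑ x ∈ range (h + 1), c x * (x : ℤ) ^ j)) := by
  obtain ⟨x₀, hx₀, hcx₀⟩ := hc
  have hs : (supp h c).Nonempty := ⟨x₀, mem_filter.2 ⟨mem_range.2 (by omega), hcx₀⟩⟩
  obtain ⟨j, hj1, hj2⟩ := exists_first hs
  refine ⟨j, hj1, hj2, ?_, fun hbig => ?_⟩
  · have h1 := lt_cheb hh hs hj1
    rwa [wt_cast] at h1
  · rw [← wt_cast] at hbig
    exact Lib.H22X.rform_bound hν hj1 hj2 hbig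

/-- Two different sets of integers in `[N, N + h]` whose sums of square roots are close: the exponent
`√h` of the separation bound is right up to logarithms. -/
theorem close_sets (N h K : ℕ) (hN : 1 ≤ N) (hK1 : 1 ≤ K)
    (hK : (h + 2) ^ (K * (K + 1) / 2) < 2 ^ (h + 1)) :
    ∃ A B : Finset ℕ, A ⊆ Icc N (N + h) ∧ B ⊆ Icc N (N + h) ∧ A ≠ B ∧
      |∑ m ∈ A, √(m : ℝ) - ∑ m ∈ B, √(m : ℝ)| ≤ (h + 1) * √N * ((h : ℝ) / N) ^ K :=
  exists_close hN hK1 hK

/-- **A certifying algorithm for the square-root sum problem.** There are polynomial-time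
computable functions `f` (the answer) and `g` (the certificate) such that the answer is right for
every instance with a certificate; and every instance has a certificate if its entries lie in a
progression with at most `(log N) ^ (2 - ε)` steps of length `D ≤ N ^ (1 - δ)` from a number `N`,
and more generally if its entries have the form `N + D x`, `x ≤ h`, and an explicit condition
holds. -/
theorem result :
    ∃ f g : List ℕ × List ℕ → Bool,
      Nonempty (TM2ComputableInPolyTime (fun a : List ℕ × List ℕ => code (enc a))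
        Computability.encodeBool f) ∧
      Nonempty (TM2ComputableInPolyTime (fun a : List ℕ × List ℕ => code (enc a))
        Computability.encodeBool g) ∧
      (∀ l₁ l₂ : List ℕ, g (l₁, l₂) = true →
        (f (l₁, l₂) = true ↔
          (l₁.map fun m : ℕ => √(m : ℝ)).sum ≤ (l₂.map fun m : ℕ => √(m : ℝ)).sum)) ∧
      (∀ ε δ : ℝ, 0 < ε → ε ≤ 2 → 0 < δ → ∃ N₀ : ℕ, ∀ N ≥ N₀, ∀ D : ℕ, 1 ≤ D →
        (D : ℝ) ≤ (N : ℝ) ^ (1 - δ) → ∀ l₁ l₂ : List ℕ,
        (∀ m ∈ l₁ ++ l₂, ∃ x : ℕ, (x : ℝ) ≤ Real.log N ^ (2 - ε) ∧ m = N + D * x) →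
        ((l₁.length + l₂.length : ℕ) : ℝ) ≤ Real.exp (Real.log N ^ (ε / 4)) →
        g (l₁, l₂) = true) ∧
      (∀ (N D h J : ℕ) (l₁ l₂ : List ℕ), 1 ≤ D → 1 ≤ h →
        (∀ m ∈ l₁ ++ l₂, ∃ x ≤ h, m = N + D * x) →
        √h * Real.log (2 * ((l₁.length + l₂.length : ℕ) : ℝ)) ≤ J →
        2 * (l₁.length + l₂.length) * D * h ^ (J + 1) ≤ N → g (l₁, l₂) = true) ∧
      (∀ l₁ l₂ : List ℕ, l₁.Perm l₂ → g (l₁, l₂) = true) := by
  refine ⟨sqrtLE, Lib.H22Y.cert, PT.tmBool PT_sqrtLE, PT.tmBool Lib.H22Y.PT_cert,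
    Lib.H22Y.cert_sound, ?_, ?_, fun l₁ l₂ hp => Lib.H22Y.cert_equal fun j => offn_perm hp⟩
  · intro ε δ h0 h2 hδ
    have ht : Tendsto (fun N : ℕ => Real.log N) atTop atTop :=
      Real.tendsto_log_atTop.comp tendsto_natCast_atTop_atTop
    obtain ⟨N₀, hN₀⟩ := eventually_atTop.1 ((Lib.H22X.eventually_prog h0 h2 hδ).and
      (ht.eventually (eventually_ge_atTop 1)))
    refine ⟨N₀, fun N hN D hD hD2 l₁ l₂ hl hn => ?_⟩
    obtain ⟨h3, h4⟩ := hN₀ N hN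
    have h6 : (1 : ℝ) ≤ Real.log N ^ (2 - ε) := Real.one_le_rpow h4 (by linarith)
    have h7 : 1 ≤ ⌊Real.log N ^ (2 - ε)⌋₊ := Nat.le_floor (by exact_mod_cast h6)
    have h8 : (⌊Real.log N ^ (2 - ε)⌋₊ : ℝ) ≤ Real.log N ^ (2 - ε) := Nat.floor_le (by linarith)
    obtain ⟨J, hJ1, hJ2⟩ := h3 _ _ D h7 hD2 h8 hn
    refine Lib.H22Y.cert_prog hD h7 (fun m hm => ?_) hJ1 hJ2
    obtain ⟨x, h9, h10⟩ := hl m hm
    exact ⟨x, Nat.le_floor h9, h10⟩
  · intro N D h J l₁ l₂ hD hh hl hJ hbig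
    exact Lib.H22Y.cert_prog hD hh hl hJ hbig

end Pool.Agent.Results.MP_1bd878_lc.WindowGap
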